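import Pool.Agent.V5helper57.OT.Stm

set_option autoImplicit false

open Matrix

namespace Pool.Agent.V5helper28.OT

open Pool.Agent.V5helper57.OT

theorem res_zero {K : Type} [Field K] (A B C A' B' C' a d : K) (h : a ≠ 0 ∨ d ≠ 0)
    (hF : A * a ^ 2 + B * (a * d) + C * d ^ 2 = 0) (hG : A' * a ^ 2 + B' * (a * d) + C' * d ^ 2 = 0) :
    (A * C' - C * A') ^ 2 = (A * B' - B * A') * (B * C' - C * B') := by
  have h1 : d * ((A * B' - B * A') * a + (A * C' - C * A') * d) = 0 := by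
    linear_combination A * hG - A' * hF
  have h2 : a * ((A * C' - C * A') * a + (B * C' - C * B') * d) = 0 := by
    linear_combination C' * hF - C * hG
  by_cases ha : a = 0
  · have hd : d ≠ 0 := by rcases h with h | h; exact absurd ha h; exact h
    subst ha
    have c1 : C = 0 := by
      have : C * d ^ 2 = 0 := by linear_combination hF
      rcases mul_eq_zero.1 this with h | h
      · exact h
      · exact absurd (pow_eq_zero_iff (two_ne_zero)|>.1 h) hd
    have c2 : C' = 0 := by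
      have : C' * d ^ 2 = 0 := by linear_combination hG
      rcases mul_eq_zero.1 this with h | h
      · exact h
      · exact absurd (pow_eq_zero_iff (two_ne_zero)|>.1 h) hd
    subst c1; subst c2; ring
  · by_cases hd : d = 0
    · subst hd
      have c1 : A = 0 := by
        have : A * a ^ 2 = 0 := by linear_combination hF
        rcases mul_eq_zero.1 this with h | h
        · exact h
        · exact absurd (pow_eq_zero_iff (two_ne_zero)|>.1 h) ha
      have c2 : A' = 0 := by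
        have : A' * a ^ 2 = 0 := by linear_combination hG
        rcases mul_eq_zero.1 this with h | h
        · exact h
        · exact absurd (pow_eq_zero_iff (two_ne_zero)|>.1 h) ha
      subst c1; subst c2; ring
    · have k1 := (mul_eq_zero.1 h1).resolve_left hd
      have k2 := (mul_eq_zero.1 h2).resolve_left ha
      have : (a * d) * ((A * C' - C * A') ^ 2 - (A * B' - B * A') * (B * C' - C * B')) = 0 := by
        linear_combination (a * (A * C' - C * A')) * k1 - a * (A * B' - B * A') * k2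
      have := (mul_eq_zero.1 this).resolve_left (mul_ne_zero ha hd)
      linear_combination this

theorem core {K : Type} [Field K] (h2 : (2 : K) ≠ 0)
    (m n r x0 x1 y0 y1 v0 v1 b01 b02 b10 b12 b20 b21 c0 c1 c2 sx sy sz cv tv : K)
    (hW : x0 * y1 - x1 * y0 ≠ 0)
    (g1 : (b20 - b10) * sx * (x0 * y1 - x1 * y0) = 1) (g2 : (b01 - b21) * sy * (x0 * y1 - x1 * y0) = 1)
    (g3 : (b12 - b02) * sz * (x0 * y1 - x1 * y0) = 1)
    (e10 : 2 * (m * x0 + n * x1 + b01 * sy * (y0 * x1 - y1 * x0) * y0 +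
      b02 * sz * ((x0 + y0) * x1 - (x1 + y1) * x0) * (x0 + y0)) = x0)
    (e11 : 2 * (r * x0 + (-m) * x1 + b01 * sy * (y0 * x1 - y1 * x0) * y1 +
      b02 * sz * ((x0 + y0) * x1 - (x1 + y1) * x0) * (x1 + y1)) = x1)
    (e20 : 2 * (m * y0 + n * y1 + b10 * sx * (x0 * y1 - x1 * y0) * x0 +
      b12 * sz * ((x0 + y0) * y1 - (x1 + y1) * y0) * (x0 + y0)) = y0)
    (e21 : 2 * (r * y0 + (-m) * y1 + b10 * sx * (x0 * y1 - x1 * y0) * x1 +
      b12 * sz * ((x0 + y0) * y1 - (x1 + y1) * y0) * (x1 + y1)) = y1)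
    (hv : v0 ≠ 0 ∨ v1 ≠ 0)
    (f0 : m * v0 + n * v1 = cv * v0) (f1 : r * v0 + (-m) * v1 = cv * v1)
    (t0 : (c0 * (sx * (-(x0 * x1))) + c1 * (sy * (-(y0 * y1))) + c2 * (sz * (-((x0 + y0) * (x1 + y1))))) * v0 +
      (c0 * (sx * (x0 ^ 2)) + c1 * (sy * (y0 ^ 2)) + c2 * (sz * ((x0 + y0) ^ 2))) * v1 = tv * v0)
    (t1 : (c0 * (sx * (-(x1 ^ 2))) + c1 * (sy * (-(y1 ^ 2))) + c2 * (sz * (-((x1 + y1) ^ 2)))) * v0 +
      (c0 * (sx * (x0 * x1)) + c1 * (sy * (y0 * y1)) + c2 * (sz * ((x0 + y0) * (x1 + y1)))) * v1 = tv * v1) :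
    Phi b01 b02 b10 b12 b20 b21 c0 c1 c2 = 0 := by
  obtain ⟨a, d, hv0, hv1⟩ : ∃ a d : K, v0 = a * x0 + d * y0 ∧ v1 = a * x1 + d * y1 := by
    refine ⟨(v0 * y1 - v1 * y0) / (x0 * y1 - x1 * y0), (x0 * v1 - x1 * v0) / (x0 * y1 - x1 * y0), ?_, ?_⟩
    · rw [div_mul_eq_mul_div, div_mul_eq_mul_div, ← add_div, eq_div_iff hW]; ring
    · rw [div_mul_eq_mul_div, div_mul_eq_mul_div, ← add_div, eq_div_iff hW]; ring
  have had : a ≠ 0 ∨ d ≠ 0 := by
    by_contra hc
    push Not at hc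
    rw [hc.1, hc.2] at hv0 hv1
    rcases hv with h | h
    · exact h (by rw [hv0]; ring)
    · exact h (by rw [hv1]; ring)
  obtain ⟨W, hWd⟩ : ∃ W, W = x0 * y1 - x1 * y0 := ⟨_, rfl⟩
  have hW' : W ≠ 0 := by rw [hWd]; exact hW
  obtain ⟨X, hX⟩ : ∃ X, X = sx * W := ⟨_, rfl⟩
  obtain ⟨Y, hY⟩ : ∃ Y, Y = sy * W := ⟨_, rfl⟩
  obtain ⟨Z, hZ⟩ : ∃ Z, Z = sz * W := ⟨_, rfl⟩
  have k1 : (b20 - b10) * X = 1 := by rw [hX, hWd]; linear_combination g1
  have k2 : (b01 - b21) * Y = 1 := by rw [hY, hWd]; linear_combination g2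
  have k3 : (b12 - b02) * Z = 1 := by rw [hZ, hWd]; linear_combination g3
  have hF : (b01 * Y + b02 * Z) * a ^ 2 + (-(b12 + b02) * Z) * (a * d) + (b10 * X + b12 * Z) * d ^ 2 = 0 := by
    have : (2 * W) * ((b01 * Y + b02 * Z) * a ^ 2 + (-(b12 + b02) * Z) * (a * d) + (b10 * X + b12 * Z) * d ^ 2) = 0 := by
      have q : 2 * (v0 * (r * v0 + (-m) * v1) - v1 * (m * v0 + n * v1)) = 0 := by
        linear_combination 2 * v0 * f1 - 2 * v1 * f0
      rw [hv0, hv1] at q
      rw [hX, hY, hZ, hWd]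
      linear_combination q - (a * x0 + d * y0) * (a * e11 + d * e21) + (a * x1 + d * y1) * (a * e10 + d * e20)
    exact (mul_eq_zero.1 this).resolve_left (mul_ne_zero h2 hW')
  have hG : (-(c1 * Y + c2 * Z)) * a ^ 2 + (2 * c2 * Z) * (a * d) + (-(c0 * X + c2 * Z)) * d ^ 2 = 0 := by
    have : W * ((-(c1 * Y + c2 * Z)) * a ^ 2 + (2 * c2 * Z) * (a * d) + (-(c0 * X + c2 * Z)) * d ^ 2) = 0 := by
      have q : v0 * ((c0 * (sx * (-(x1 ^ 2))) + c1 * (sy * (-(y1 ^ 2))) + c2 * (sz * (-((x1 + y1) ^ 2)))) * v0 +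
        (c0 * (sx * (x0 * x1)) + c1 * (sy * (y0 * y1)) + c2 * (sz * ((x0 + y0) * (x1 + y1)))) * v1) -
        v1 * ((c0 * (sx * (-(x0 * x1))) + c1 * (sy * (-(y0 * y1))) + c2 * (sz * (-((x0 + y0) * (x1 + y1))))) * v0 +
        (c0 * (sx * (x0 ^ 2)) + c1 * (sy * (y0 ^ 2)) + c2 * (sz * ((x0 + y0) ^ 2))) * v1) = 0 := by
        linear_combination v0 * t1 - v1 * t0
      rw [hv0, hv1] at q
      rw [hX, hY, hZ, hWd]
      linear_combination q
    exact (mul_eq_zero.1 this).resolve_left hW'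
  have hR := res_zero _ _ _ _ _ _ a d had hF hG
  have nα : b20 - b10 ≠ 0 := by intro h; rw [h, zero_mul] at k1; exact zero_ne_one k1
  have nβ : b01 - b21 ≠ 0 := by intro h; rw [h, zero_mul] at k2; exact zero_ne_one k2
  have nγ : b12 - b02 ≠ 0 := by intro h; rw [h, zero_mul] at k3; exact zero_ne_one k3
  obtain ⟨α, hα⟩ : ∃ α, α = b20 - b10 := ⟨_, rfl⟩
  obtain ⟨β, hβ⟩ : ∃ β, β = b01 - b21 := ⟨_, rfl⟩
  obtain ⟨γ, hγ⟩ : ∃ γ, γ = b12 - b02 := ⟨_, rfl⟩
  have e1 : b20 = α + b10 := by rw [hα]; ring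
  have e2 : b21 = b01 - β := by rw [hβ]; ring
  have e3 : b12 = γ + b02 := by rw [hγ]; ring
  subst e1; subst e2; subst e3
  have nα' : α ≠ 0 := by rw [hα]; exact nα
  have nβ' : β ≠ 0 := by rw [hβ]; exact nβ
  have nγ' : γ ≠ 0 := by rw [hγ]; exact nγ
  have kX : X = 1 / α := by field_simp; linear_combination k1
  have kY : Y = 1 / β := by field_simp; linear_combination k2
  have kZ : Z = 1 / γ := by field_simp; linear_combination k3
  rw [kX, kY, kZ] at hR
  field_simp at hR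
  have hfin : γ ^ 2 * Phi (b01) b02 b10 (γ + b02) (α + b10) (b01 - β) c0 c1 c2 = 0 := by
    unfold Phi
    linear_combination hR
  exact (mul_eq_zero.1 hfin).resolve_left (pow_ne_zero 2 nγ')

theorem t_TRI : S_TRI := by
  intro K _ h2 C x y v b01 b02 b10 b12 b20 b21 c0 c1 c2 sx sy sz hC hW g1 g2 g3 e1 e2 hv hCv hTv
  obtain ⟨cv, hcv⟩ := hCv
  obtain ⟨tv, htv⟩ := hTv
  have e10 := congrFun e1 0
  have e11 := congrFun e1 1
  have e20 := congrFun e2 0
  have e21 := congrFun e2 1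
  have f0 := congrFun hcv 0
  have f1 := congrFun hcv 1
  have t0 := congrFun htv 0
  have t1 := congrFun htv 1
  have hm : C 1 1 = - C 0 0 := by
    rw [Matrix.trace_fin_two] at hC
    linear_combination hC
  simp only [Matrix.mulVec, dotProduct, Fin.sum_univ_two, Pi.add_apply, Pi.smul_apply, smul_eq_mul,
    Matrix.add_apply, Matrix.smul_apply, Matrix.of_apply, Matrix.cons_val', Matrix.cons_val_zero,
    Matrix.cons_val_one, Matrix.cons_val_fin_one, hm] at e10 e11 e20 e21 f0 f1 t0 t1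
  have hv' : v 0 ≠ 0 ∨ v 1 ≠ 0 := by
    by_contra hc
    push Not at hc
    exact hv (by ext i; fin_cases i; exact hc.1; exact hc.2)
  exact core h2 (C 0 0) (C 0 1) (C 1 0) (x 0) (x 1) (y 0) (y 1) (v 0) (v 1) b01 b02 b10 b12 b20 b21 c0 c1 c2
    sx sy sz cv tv hW g1 g2 g3 (by linear_combination e10) (by linear_combination e11)
    (by linear_combination e20) (by linear_combination e21) hv' (by linear_combination f0)
    (by linear_combination f1) (by linear_combination t0) (by linear_combination t1)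

end Pool.Agent.V5helper28.OT
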